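import Pool.Agent.TH83.DC.Ints

/-!
# Sums and products of sets of integers with few divisors

Let `A` be a finite set of nonzero integers each of which has at most `|A| ^ κ` divisors, and let `D`
be the set of the positive divisors of the members of `A`. Either the `k`-fold product set of `A`
has at least `|A| ^ (k - δ)` elements, or `|mD + B| ≥ c |A| ^ (m - ε) |B| ^ (1 - ε)` for every finite
nonempty set `B` of integers. If `A` is closed under positive divisors then `D ⊆ A` (and `κ = 1`), so
the `k`-fold Erdős–Szemerédi conjecture holds for `A` (`m = k`, `δ = ε`, `B = {0}`).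

The proof has two parts. (1) Dilates: if `n` has at least `(|X| |B|) ^ θ` divisors then
`|d X + B| ≥ c (|X| |B|) ^ (1 - δ)` for some divisor `d` of `n`; the mean of `log |d X + B|` over the
divisors is bounded from below by induction over the primes, with the residues of `X` and `B` modulo
powers of the largest prime. (2) Re-splitting: if there are few products then most products have
many factorisations; re-splitting along a `k`-ary tree cuts a random member of `A` into many parts
which are common with independent random members, so some `n` with at least `|A| ^ θ` divisors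
divides at least `|A| ^ (1 - ε)` members.
-/

set_option autoImplicit false

open scoped Pointwise

namespace Pool.Agent.Results.MP_120218_co.DivisorClosed

/-- Either the `k`-fold product set of `A` is almost as large as possible, or all the `m`-fold sum
sets of the divisors of the members of `A` (plus an arbitrary set) are. -/
theorem result (k m : ℕ) (hk : 1 ≤ k) (δ ε κ : ℝ) (hδ : 0 < δ) (hε : 0 < ε) (hκ : 0 < κ) :
    ∃ c : ℝ, 0 < c ∧ ∀ A : Finset ℤ, A.Nonempty → 0 ∉ A →
      (∀ a ∈ A, (a.natAbs.divisors.card : ℝ) ≤ (A.card : ℝ) ^ κ) →
      (A.card : ℝ) ^ ((k : ℝ) - δ) ≤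
        (((Fintype.piFinset fun _ : Fin k => A).image fun f => ∏ i, f i).card : ℝ) ∨
      ∀ B : Finset ℤ, B.Nonempty →
        c * (A.card : ℝ) ^ ((m : ℝ) - ε) * (B.card : ℝ) ^ (1 - ε) ≤
          ((((Fintype.piFinset fun _ : Fin m =>
            A.biUnion fun a => a.natAbs.divisors.image fun d : ℕ => (d : ℤ)).image
              fun f => ∑ i, f i) + B).card : ℝ) := by
  obtain ⟨c, hc, h⟩ := Pool.Agent.TH83.DC.final k m hk δ ε κ hδ hε hκ
  refine ⟨c, hc, fun A hA h0 hfew => ?_⟩
  have h1 := h A hA h0 hfew
  unfold Pool.Agent.TH83.DC.kProd Pool.Agent.TH83.DC.kSum Pool.Agent.TH83.DC.DD at h1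
  convert h1

end Pool.Agent.Results.MP_120218_co.DivisorClosed
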