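import Pool.Agent.TH715.SPU.Fin

/-!
# The `k`-fold sum-product conjecture for almost all multiplicative images of every finite set

Let `E` be ANY nonempty finite set of exponent vectors in `ℕ ^ m`, i.e. any finite set of positive
integers composed of `m` primes, and let `Q` be any set of `N ≥ 16 m` primes. For all but at most
`1 / |E|` of the `m`-tuples `x` of distinct primes of `Q`, every nonempty subset `F` of `E` gives a
set `A = {∏ x_i ^ f_i : f ∈ F}` with `max (|kA|, |A ^ k|) ≥ c |F| ^ k |E| ^ (-C / √(log log (N / m)))`.

Method. Call exponent vectors distant if they differ in at least `M ≈ log |E| / log log (N / m)`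
places. Claim: for almost all `x` no nondegenerate relation contains distant vectors. If some
exponent pattern of the relation is popular, the product of the primes at its places is a root of a
polynomial with few terms, hence (Descartes) one of few numbers, and the primes at these places are
determined. Otherwise use an ultrametric pairing: at every place the least valuation is attained by
two terms; merge the most popular pair of terms and repeat. On the remaining positive proportion of
the places the equalities of valuations determine the ratios of all terms, hence the patterns, from
the other primes and the unordered set of the remaining primes; as no pattern is popular, this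
happens for very few arrangements. So sums of `k` pairwise distant elements coincide only trivially.
If many elements of `F` are close to one of them, the theorem `FullRange` of the starting files on
few prime factors applies.
-/

set_option autoImplicit false

namespace Pool.Agent.Results.MP_120218_co.EveryFiniteSet

/-- the set of the integers `∏ x_i ^ f_i`, `f ∈ F` -/
def image {m : ℕ} {Q : Finset ℕ} (x : Fin m ↪ Q) (F : Finset (Fin m → ℕ)) : Finset ℤ :=
  F.image fun f => ∏ i, ((x i : ℕ) : ℤ) ^ f i

open Classical in
theorem result (k : ℕ) (hk : 1 ≤ k) :
    ∃ C c : ℝ, 0 < C ∧ 0 < c ∧ ∀ (m : ℕ) (E : Finset (Fin m → ℕ)), E.Nonempty →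
      ∀ Q : Finset ℕ, (∀ p ∈ Q, p.Prime) → 16 * m ≤ Q.card →
      ((Finset.univ.filter fun x : Fin m ↪ Q => ¬ ∀ F ⊆ E, F.Nonempty →
          c * (F.card : ℝ) ^ k *
            (E.card : ℝ) ^ (-(C / Real.sqrt (Real.log (Real.log ((Q.card : ℝ) / m))))) ≤
            max (((Fintype.piFinset fun _ : Fin k => image x F).image fun a => ∑ i, a i).card : ℝ)
              (((Fintype.piFinset fun _ : Fin k => image x F).image
                fun a => ∏ i, a i).card : ℝ)).card : ℝ) ≤
        (Fintype.card (Fin m ↪ Q) : ℝ) / E.card :=
  Pool.Agent.TH715.SPU.finalU k hk

end Pool.Agent.Results.MP_120218_co.EveryFiniteSet
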