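import Pool.Agent.TH358.SN.Main

set_option autoImplicit false

/-!
# The `k`-fold Erdős–Szemerédi conjecture for large sets of smooth numbers

Let `P` be a set of primes up to `y` with at least `b y ^ c` elements (for instance all the primes up
to `y`) and let `S` be the set of the positive integers up to `x ≥ y` composed of primes of `P`. Then
`max (|kA|, |A ^ k|) ≥ κ |A| ^ (k - ε)` for every set `A` of integers `± s`, `s ∈ S`, with
`|A| ≥ |S| ^ (1 - η)`, and also if only `|A| ≥ |S| ^ θ`, provided that `P` has at least `C log |A|`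
elements. The constants `η, C, κ` depend on `k, ε, b, c, θ` only; the result is uniform in `x, y, P`.

If `P` has at most `C log |A|` elements then the `K`-fold product set of `A` is small for large `K`,
because a `K`-th root of every product lies in `S` up to a factor with exponents below `K`
(multiplicative convexity of `S`), and `S` contains all the divisors of the elements of `A`; the
inequality of `MP_120218_co.FewDivisors` (starting files) then gives an almost maximal sumset. In the
other case the counting functions show that every number in `S` has only `o(log |A|)` prime factors,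
and the theorem `MP_120218_co.FullRange` (starting files) applies.
-/

namespace Pool.Agent.Results.MP_120218_co.SmoothNumbers

open Finset

/-- The positive integers up to `x` all of whose prime factors belong to `P`. -/
def composed (x : ℕ) (P : Finset ℕ) : Finset ℕ := (Icc 1 x).filter fun n => n.primeFactors ⊆ P

/-- The set `kA` of the sums of `k` elements of `A`. -/
def sums (k : ℕ) (A : Finset ℤ) : Finset ℤ :=
  (Fintype.piFinset fun _ : Fin k => A).image fun f => ∑ i, f i

/-- The set `A ^ k` of the products of `k` elements of `A`. -/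
def products (k : ℕ) (A : Finset ℤ) : Finset ℤ :=
  (Fintype.piFinset fun _ : Fin k => A).image fun f => ∏ i, f i

/-- **The `k`-fold sum-product conjecture for large sets of numbers composed of given primes.** -/
theorem result (k : ℕ) (hk : 1 ≤ k) (ε b c θ : ℝ) (hε : 0 < ε) (hb : 0 < b) (hc : 0 < c)
    (hθ : 0 < θ) :
    ∃ η C κ : ℝ, 0 < η ∧ 0 < κ ∧ ∀ (x y : ℕ) (P : Finset ℕ), 2 ≤ y → y ≤ x →
      (∀ p ∈ P, p.Prime ∧ p ≤ y) → b * (y : ℝ) ^ c ≤ P.card →
      ∀ A : Finset ℤ, A.Nonempty → (∀ a ∈ A, a.natAbs ∈ composed x P) →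
        (((composed x P).card : ℝ) ^ (1 - η) ≤ A.card ∨
          (((composed x P).card : ℝ) ^ θ ≤ A.card ∧ C * Real.log A.card ≤ P.card)) →
        κ * (A.card : ℝ) ^ ((k : ℝ) - ε) ≤
          max ((sums k A).card : ℝ) ((products k A).card : ℝ) := by
  obtain ⟨η, C, κ, hη, hκ, h⟩ := Pool.Agent.TH358.SN.main k hk ε b c θ hε hb hc hθ
  refine ⟨η, C, κ, hη, hκ, fun x y P hy hyx hP hPc A hA hAP hcase => ?_⟩
  have h1 := h x y P hy hyx hP hPc A hA hAP
  rcases hcase with h2 | ⟨h2, h3⟩
  · exact h1.1 h2
  · exact h1.2 h2 h3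

/-- The case of the `y`-smooth numbers up to `x`. -/
theorem smooth (k : ℕ) (hk : 1 ≤ k) (ε : ℝ) (hε : 0 < ε) :
    ∃ η κ : ℝ, 0 < η ∧ 0 < κ ∧ ∀ x y : ℕ, 2 ≤ y → y ≤ x → ∀ S : Finset ℕ,
      S = (Icc 1 x).filter (fun n => ∀ p ∈ n.primeFactors, p ≤ y) →
      ∀ A : Finset ℤ, A.Nonempty → (∀ a ∈ A, a.natAbs ∈ S) → (S.card : ℝ) ^ (1 - η) ≤ A.card →
        κ * (A.card : ℝ) ^ ((k : ℝ) - ε) ≤
          max ((sums k A).card : ℝ) ((products k A).card : ℝ) := by
  obtain ⟨η, C, κ, hη, hκ, h⟩ := result k hk ε (1 / 10) (1 / 2) 1 hε (by norm_num) (by norm_num)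
    one_pos
  refine ⟨η, κ, hη, hκ, fun x y hy hyx S hS A hA hAS hcard => ?_⟩
  subst hS
  rw [Pool.Agent.TH358.SN.smooth_eq] at hAS hcard
  refine h x y (Pool.Agent.TH358.SN.primesTo y) hy hyx ?_
    (Pool.Agent.TH358.SN.primesTo_ge y hy) A hA hAS (Or.inl hcard)
  intro p hp
  rw [Pool.Agent.TH358.SN.primesTo, mem_filter, mem_range] at hp
  exact ⟨hp.2, by omega⟩

end Pool.Agent.Results.MP_120218_co.SmoothNumbers
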